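import Mathlib

namespace Pool.Agent.Results.MP_e9025c_co.CyclicUpwords

/-- The word `u` of length `n` is covered by the partial word `w` at position `i` (the wild card is
`none`, the letters are `some false` and `some true`). -/
def CoveredAt (n : ℕ) (w : List (Option Bool)) (u : Fin n → Bool) (i : ℕ) : Prop :=
  i + n ≤ w.length ∧
    ∀ j : Fin n, w[i + (j : ℕ)]? = some none ∨ w[i + (j : ℕ)]? = some (some (u j))

/-- `w` is a universal partial word for `{0,1}^n`: every word of length `n` is covered at exactly
one position. -/
def Universal (n : ℕ) (w : List (Option Bool)) : Prop :=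
  ∀ u : Fin n → Bool, ∃! i, CoveredAt n w u i

/-- All windows (blocks of `n` consecutive characters) have the same number of wild cards. -/
def WellDefinedDiamondicity (n : ℕ) (w : List (Option Bool)) : Prop :=
  ∃ d, ∀ i, i + n ≤ w.length → ((w.drop i).take n).count none = d

/-- The first `n - 1` and the last `n - 1` characters are the same strings. -/
def Pseudocyclic (n : ℕ) (w : List (Option Bool)) : Prop :=
  w.take (n - 1) = w.drop (w.length - (n - 1))

/-- Pseudocyclic and the two blocks do not overlap. -/
def Cyclic (n : ℕ) (w : List (Option Bool)) : Prop :=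
  Pseudocyclic n w ∧ 2 * (n - 1) ≤ w.length

/-- `w` is not the word consisting of `n` wild cards and contains a wild card. -/
def Nontrivial (n : ℕ) (w : List (Option Bool)) : Prop :=
  w ≠ List.replicate n none ∧ none ∈ w

/-- a character matches a letter -/
def M (a : Option Bool) (b : Bool) : Prop := a = none ∨ a = some b

/-- the multiplicity of a character -/
def m (a : Option Bool) : ℕ := if a = none then 2 else 1

lemma m_pos (a : Option Bool) : 1 ≤ m a := by
  unfold m; split_ifs <;> omega

lemma M_getD (a : Option Bool) : M a (a.getD false) := by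
  cases a with
  | none => exact Or.inl rfl
  | some b => exact Or.inr rfl

/-- the block of length `k` at position `i` covers `x` -/
def Bl (k : ℕ) (W : ℕ → Option Bool) (x : ℕ → Bool) (i : ℕ) : Prop :=
  ∀ j < k, M (W (i + j)) (x j)

section core

open Classical

variable {k K : ℕ} {W : ℕ → Option Bool}

lemma sum_unique {N : ℕ} {P : ℕ → Prop} (h : ∃! i, i < N ∧ P i) :
    ∑ i ∈ Finset.range N, (if P i then 1 else 0) = 1 := by
  obtain ⟨i, ⟨hi, hp⟩, hu⟩ := h
  rw [Finset.sum_eq_single i]
  · rw [if_pos hp]
  · intro b hb hne
    rw [if_neg]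
    intro hPb
    exact hne (hu b ⟨Finset.mem_range.1 hb, hPb⟩)
  · intro hh
    exact absurd (Finset.mem_range.2 hi) hh

lemma two_letters (a : Option Bool) (P : Prop) :
    (if P ∧ M a true then 1 else 0) + (if P ∧ M a false then 1 else 0) =
      if P then m a else 0 := by
  by_cases hP : P
  · cases a with
    | none => simp [M, m, hP]
    | some b => cases b <;> simp [M, m, hP]
  · simp [hP]

variable (hU : ∀ u : ℕ → Bool, ∃! i, i < K + 1 ∧ Bl (k + 1) W u i)

include hU in
lemma sum1 (x : ℕ → Bool) : ∑ i ∈ Finset.range (K + 1),
    (if Bl k W x i then m (W (i + k)) else 0) = 2 := by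
  have h : ∀ b : Bool, ∑ i ∈ Finset.range (K + 1),
      (if (Bl k W x i ∧ M (W (i + k)) b) then 1 else 0) = 1 := by
    intro b
    have h1 := sum_unique (hU (fun j => if j < k then x j else b))
    refine Eq.trans ?_ h1
    apply Finset.sum_congr rfl
    intro i _
    refine if_congr ?_ rfl rfl
    unfold Bl
    rw [Nat.forall_lt_succ_right]
    constructor
    · rintro ⟨h2, h3⟩
      refine ⟨?_, ?_⟩
      · intro j hj
        simp only [hj, if_true]
        exact h2 j hj
      · simp only [lt_irrefl, if_false]
        exact h3
    · rintro ⟨h2, h3⟩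
      refine ⟨?_, ?_⟩
      · intro j hj
        have := h2 j hj
        simp only [hj, if_true] at this
        exact this
      · simp only [lt_irrefl, if_false] at h3
        exact h3
  have h1 := h true
  have h2 := h false
  calc _ = ∑ i ∈ Finset.range (K + 1),
      ((if (Bl k W x i ∧ M (W (i + k)) true) then 1 else 0) +
        (if (Bl k W x i ∧ M (W (i + k)) false) then 1 else 0)) := by
        apply Finset.sum_congr rfl
        intro i _
        exact (two_letters _ _).symm
    _ = 2 := by rw [Finset.sum_add_distrib, h1, h2]

include hU in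
lemma sum2 (x : ℕ → Bool) : ∑ i ∈ Finset.range (K + 1),
    (if Bl k W x (i + 1) then m (W i) else 0) = 2 := by
  have h : ∀ b : Bool, ∑ i ∈ Finset.range (K + 1),
      (if (Bl k W x (i + 1) ∧ M (W i) b) then 1 else 0) = 1 := by
    intro b
    have h1 := sum_unique (hU (fun j => if j = 0 then b else x (j - 1)))
    refine Eq.trans ?_ h1
    apply Finset.sum_congr rfl
    intro i _
    refine if_congr ?_ rfl rfl
    constructor
    · rintro ⟨h2, h3⟩ j hj
      rcases Nat.eq_zero_or_pos j with rfl | hj0
      · simpa using h3
      · have h4 := h2 (j - 1) (by omega)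
        have e : i + 1 + (j - 1) = i + j := by omega
        rw [e] at h4
        have : j ≠ 0 := by omega
        simp only [this, if_false]
        exact h4
    · intro h2
      refine ⟨?_, ?_⟩
      · intro j hj
        have h4 := h2 (j + 1) (by omega)
        have e : i + (j + 1) = i + 1 + j := by omega
        rw [e] at h4
        simpa using h4
      · simpa using h2 0 (by omega)
  have h1 := h true
  have h2 := h false
  calc _ = ∑ i ∈ Finset.range (K + 1),
      ((if (Bl k W x (i + 1) ∧ M (W i) true) then 1 else 0) +
        (if (Bl k W x (i + 1) ∧ M (W i) false) then 1 else 0)) := by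
        apply Finset.sum_congr rfl
        intro i _
        exact (two_letters _ _).symm
    _ = 2 := by rw [Finset.sum_add_distrib, h1, h2]

/-- two blocks covering the same words are equal -/
lemma block_eq {a b : ℕ → Option Bool}
    (h : ∀ x : ℕ → Bool, (∀ j < k, M (a j) (x j)) ↔ (∀ j < k, M (b j) (x j))) :
    ∀ j < k, a j = b j := by
  have key : ∀ {a b : ℕ → Option Bool},
      (∀ x : ℕ → Bool, (∀ j < k, M (a j) (x j)) → (∀ j < k, M (b j) (x j))) →
      ∀ j < k, ∀ c, b j = some c → a j = some c := by
    intro a b h j hj c hc
    have h1 := h (fun i => if i = j then (a j).getD (!c) else (a i).getD false) (by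
      intro i hi
      by_cases hij : i = j
      · subst hij
        simp only [if_true]
        cases a i with
        | none => exact Or.inl rfl
        | some b => exact Or.inr rfl
      · simp only [hij, if_false]
        exact M_getD _) j hj
    simp only [if_true, hc] at h1
    rcases h1 with h1 | h1
    · exact absurd h1 (by simp)
    · rw [Option.some.injEq] at h1
      cases ha : a j with
      | none => rw [ha] at h1; simp at h1
      | some b => rw [ha] at h1; simp at h1; rw [h1]
  intro j hj
  have k1 := key (fun x => (h x).1) j hj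
  have k2 := key (fun x => (h x).2) j hj
  cases ha : a j with
  | some c => exact (k2 c ha).symm
  | none =>
    cases hb : b j with
    | none => rfl
    | some c => rw [k1 c hb] at ha; exact absurd ha (by simp)

include hU in
/-- equal numbers of wild cards in all windows give pseudocyclicity -/
lemma pseudo_of_wd (hD : ∀ i < K, W i = none ↔ W (i + k + 1) = none) :
    ∀ j < k, W j = W (K + 1 + j) := by
  have hmain : ∀ x, Bl k W x 0 ↔ Bl k W x (K + 1) := by
    intro x
    have h1 := sum1 hU x
    have h2 := sum2 hU x
    rw [Finset.sum_range_succ'] at h1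
    rw [Finset.sum_range_succ] at h2
    have h3 : ∑ i ∈ Finset.range K, (if Bl k W x (i + 1)
        then m (W (i + 1 + k)) else 0) = ∑ i ∈ Finset.range K,
        (if Bl k W x (i + 1) then m (W i) else 0) := by
      apply Finset.sum_congr rfl
      intro i hi
      have h4 : m (W (i + 1 + k)) = m (W i) := by
        unfold m
        have e : i + 1 + k = i + k + 1 := by omega
        rw [e]
        simp only [hD i (Finset.mem_range.1 hi)]
      rw [h4]
    rw [h3] at h1
    have h5 : (if Bl k W x 0 then m (W (0 + k)) else 0) =
        (if Bl k W x (K + 1) then m (W K) else 0) := by omega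
    have m1 := m_pos (W (0 + k))
    have m2 := m_pos (W K)
    constructor
    · intro hx
      rw [if_pos hx] at h5
      by_contra hc
      rw [if_neg hc] at h5
      omega
    · intro hx
      rw [if_pos hx] at h5
      by_contra hc
      rw [if_neg hc] at h5
      omega
  apply block_eq
  intro x
  have := hmain x
  unfold Bl at this
  simpa only [zero_add] using this
lemma count_lemma {N : ℕ} {P : ℕ → Prop} {c : ℕ → ℕ} (hc : ∀ i, 1 ≤ c i)
    (hs : ∑ i ∈ Finset.range N, (if P i then c i else 0) = 2) {i : ℕ} (hi : i < N) (hp : P i) :
    c i = 2 ↔ ∑ i ∈ Finset.range N, (if P i then 1 else 0) = 1 := by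
  have hmem := Finset.mem_range.2 hi
  rw [← Finset.add_sum_erase _ _ hmem, if_pos hp] at hs
  rw [← Finset.add_sum_erase _ _ hmem, if_pos hp]
  have hle : ∑ x ∈ (Finset.range N).erase i, (if P x then 1 else 0) ≤
      ∑ x ∈ (Finset.range N).erase i, (if P x then c x else 0) := by
    apply Finset.sum_le_sum
    intro j _
    split_ifs
    · exact hc j
    · exact le_refl _
  constructor
  · intro h
    omega
  · intro h
    have h0 : ∑ x ∈ (Finset.range N).erase i, (if P x then 1 else 0) = 0 := by omega
    rw [Finset.sum_eq_zero_iff] at h0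
    have h1 : ∑ x ∈ (Finset.range N).erase i, (if P x then c x else 0) = 0 := by
      apply Finset.sum_eq_zero
      intro x hx
      have h2 := h0 x hx
      by_cases hPx : P x
      · rw [if_pos hPx] at h2; omega
      · rw [if_neg hPx]
    omega

lemma m_eq_two (a : Option Bool) : m a = 2 ↔ a = none := by
  unfold m; split_ifs with h <;> simp [h]

include hU in
/-- pseudocyclicity gives equal numbers of wild cards in all windows -/
lemma wd_of_pseudo (hper : ∀ j < k, W j = W (K + 1 + j)) :
    ∀ i < K, W i = none ↔ W (i + k + 1) = none := by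
  intro i hi
  set x : ℕ → Bool := fun j => (W (i + 1 + j)).getD false with hx
  have hf : ∀ j < k, M (W (i + 1 + j)) (x j) := fun j _ => M_getD _
  have h1 := sum1 hU x
  have h2 := sum2 hU x
  have c1 := count_lemma (N := K + 1) (P := fun i => Bl k W x i)
    (c := fun i => m (W (i + k))) (fun i => m_pos _) h1 (i := i + 1) (by omega) hf
  have c2 := count_lemma (N := K + 1) (P := fun i => Bl k W x (i + 1))
    (c := fun i => m (W i)) (fun i => m_pos _) h2 (i := i) (by omega) hf
  have e0 : Bl k W x 0 ↔ Bl k W x (K + 1) := by
    constructor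
    · intro h j hj
      rw [← hper j hj]
      have := h j hj
      rwa [zero_add] at this
    · intro h j hj
      rw [zero_add, hper j hj]
      exact h j hj
  have hAB : ∑ i ∈ Finset.range (K + 1), (if Bl k W x i then 1 else 0) =
      ∑ i ∈ Finset.range (K + 1), (if Bl k W x (i + 1) then 1 else 0) := by
    rw [Finset.sum_range_succ', Finset.sum_range_succ]
    congr 1
    simp only [e0]
  rw [hAB] at c1
  have c3 := c2.trans c1.symm
  rw [m_eq_two, m_eq_two] at c3
  have e : i + k + 1 = i + 1 + k := by omega
  rw [e]
  exact c3

include hU in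
/-- if the two end blocks overlap then everything is a wild card -/
lemma overlap (hper : ∀ j < k, W j = W (K + 1 + j)) (hlt : K + 1 ≤ k) :
    ∀ i < K + 1, W i = none := by
  intro i hi
  set p : ℕ → Bool := fun j => (W (i + j)).getD false with hp
  set u : ℕ → Bool := fun j => xor (p (j % (K + 1))) (decide ((j / (K + 1)) % 2 = 1)) with hu
  have hcomp : ∀ j, u (j + (K + 1)) = !(u j) := by
    intro j
    simp only [hu]
    rw [Nat.add_mod_right, Nat.add_div_right _ (Nat.succ_pos K)]
    rcases Nat.mod_two_eq_zero_or_one (j / (K + 1)) with h | h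
    · have h' : (j / (K + 1) + 1) % 2 = 1 := by omega
      simp [h, h']
    · have h' : (j / (K + 1) + 1) % 2 = 0 := by omega
      simp [h, h']
  have hsmall : ∀ j < K + 1, u j = p j := by
    intro j hj
    simp only [hu]
    rw [Nat.mod_eq_of_lt hj, Nat.div_eq_of_lt hj]
    simp
  obtain ⟨i0, ⟨hi0, hc0⟩, -⟩ := hU u
  have hnone : ∀ j, j + (K + 1) < k + 1 → W (i0 + j) = none := by
    intro j hj
    have h1 := hc0 j (by omega)
    have h2 := hc0 (j + (K + 1)) hj
    have e : W (i0 + (j + (K + 1))) = W (i0 + j) := by
      have := hper (i0 + j) (by omega)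
      rw [this]
      congr 1
      omega
    rw [e, hcomp] at h2
    rcases h1 with h1 | h1
    · exact h1
    · rcases h2 with h2 | h2
      · exact h2
      · rw [h1] at h2
        simp at h2
  have hcov : ∀ j < k + 1, M (W (i0 + j)) (p j) := by
    intro j hj
    by_cases hjK : j < K + 1
    · rw [← hsmall j hjK]
      exact hc0 j hj
    · obtain ⟨t, rfl⟩ : ∃ t, j = t + (K + 1) := ⟨j - (K + 1), by omega⟩
      have h1 := hnone t hj
      have e : W (i0 + (t + (K + 1))) = W (i0 + t) := by
        have := hper (i0 + t) (by omega)
        rw [this]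
        congr 1
        omega
      rw [e, h1]
      exact Or.inl rfl
  obtain ⟨i1, -, hi1⟩ := hU p
  have a1 := hi1 i0 ⟨hi0, hcov⟩
  have a2 := hi1 i ⟨hi, fun j _ => M_getD _⟩
  have a3 : i = i0 := by rw [a1, a2]
  have := hnone 0 (by omega)
  rw [add_zero] at this
  rw [a3]
  exact this

end core

/-- the characters of a list, as a function -/
def chr (w : List (Option Bool)) (i : ℕ) : Option Bool := (w[i]?).getD none

lemma chr_spec {w : List (Option Bool)} {i : ℕ} (hi : i < w.length) : w[i]? = some (chr w i) := by
  unfold chr
  rw [List.getElem?_eq_getElem hi]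
  rfl

lemma covered_iff {k : ℕ} {w : List (Option Bool)} {u : Fin (k + 1) → Bool} {i : ℕ} :
    CoveredAt (k + 1) w u i ↔
      i + (k + 1) ≤ w.length ∧ ∀ j (hj : j < k + 1), M (chr w (i + j)) (u ⟨j, hj⟩) := by
  unfold CoveredAt M
  constructor
  · rintro ⟨h1, h2⟩
    refine ⟨h1, fun j hj => ?_⟩
    have h3 := h2 ⟨j, hj⟩
    simp only at h3
    rw [chr_spec (by omega)] at h3
    simpa using h3
  · rintro ⟨h1, h2⟩
    refine ⟨h1, fun j => ?_⟩
    have h3 := h2 j j.2
    rw [chr_spec (by omega)]
    simpa using h3

lemma universal_chr {k : ℕ} {w : List (Option Bool)} (h : Universal (k + 1) w) :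
    ∃ K, w.length = K + 1 + k ∧
      ∀ u : ℕ → Bool, ∃! i, i < K + 1 ∧ Bl (k + 1) (chr w) u i := by
  obtain ⟨i, hi, -⟩ := h (fun _ => true)
  have h1 := hi.1
  refine ⟨w.length - (k + 1), by omega, ?_⟩
  intro u
  obtain ⟨i, hi, hu⟩ := h (fun j => u j)
  rw [covered_iff] at hi
  refine ⟨i, ⟨by omega, fun j hj => hi.2 j hj⟩, ?_⟩
  rintro y ⟨hy1, hy2⟩
  apply hu
  rw [covered_iff]
  exact ⟨by omega, fun j hj => hy2 j hj⟩

lemma count_window (w : List (Option Bool)) (i : ℕ) : ∀ n, i + n ≤ w.length →
    ((w.drop i).take n).count none = ∑ j ∈ Finset.range n, (if chr w (i + j) = none then 1 else 0)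
  | 0, _ => by simp
  | n + 1, h => by
    rw [List.take_add_one, List.count_append, count_window w i n (by omega),
      Finset.sum_range_succ, List.getElem?_drop, chr_spec (by omega)]
    congr 1
    cases chr w (i + n) with
    | none => simp
    | some b => simp

lemma wd_iff {k K : ℕ} {w : List (Option Bool)} (hL : w.length = K + 1 + k) :
    WellDefinedDiamondicity (k + 1) w ↔
      ∀ i < K, chr w i = none ↔ chr w (i + k + 1) = none := by
  have step : ∀ i, (∑ j ∈ Finset.range (k + 1), (if chr w (i + 1 + j) = none then 1 else 0)) +
      (if chr w i = none then 1 else 0) =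
      (∑ j ∈ Finset.range (k + 1), (if chr w (i + j) = none then 1 else 0)) +
      (if chr w (i + k + 1) = none then 1 else 0) := by
    intro i
    rw [Finset.sum_range_succ, Finset.sum_range_succ' (fun j => if chr w (i + j) = none then 1
      else 0)]
    have e : ∑ j ∈ Finset.range k, (if chr w (i + 1 + j) = none then 1 else 0) =
        ∑ j ∈ Finset.range k, (if chr w (i + (j + 1)) = none then 1 else 0) := by
      apply Finset.sum_congr rfl
      intro j _
      have : i + 1 + j = i + (j + 1) := by omega
      rw [this]
    have e2 : i + 1 + k = i + k + 1 := by omega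
    rw [e, e2, add_zero]
    ring
  constructor
  · rintro ⟨d, hd⟩ i hi
    have h1 := hd i (by omega)
    have h2 := hd (i + 1) (by omega)
    rw [count_window _ _ _ (by omega)] at h1 h2
    have h3 := step i
    rw [h1, h2] at h3
    by_cases ha : chr w i = none <;> by_cases hb : chr w (i + k + 1) = none <;>
      simp [ha, hb] at h3 ⊢
  · intro h
    refine ⟨∑ j ∈ Finset.range (k + 1), (if chr w (0 + j) = none then 1 else 0), ?_⟩
    intro i
    induction i with
    | zero =>
      intro _
      rw [count_window _ _ _ (by omega)]
    | succ i ih =>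
      intro hi
      rw [← ih (by omega), count_window _ _ _ (by omega), count_window _ _ _ (by omega)]
      have h3 := step i
      simp only [h i (by omega)] at h3
      omega

lemma pseudo_iff {k K : ℕ} {w : List (Option Bool)} (hL : w.length = K + 1 + k) :
    Pseudocyclic (k + 1) w ↔ ∀ j < k, chr w j = chr w (K + 1 + j) := by
  unfold Pseudocyclic
  have e : w.length - (k + 1 - 1) = K + 1 := by omega
  rw [e, Nat.add_sub_cancel]
  constructor
  · intro h j hj
    have h1 := congrArg (fun l => l[j]?) h
    simp only [List.getElem?_take, hj, if_true, List.getElem?_drop] at h1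
    unfold chr
    rw [h1]
  · intro h
    apply List.ext_getElem?
    intro j
    rw [List.getElem?_take, List.getElem?_drop]
    by_cases hj : j < k
    · simp only [hj, if_true]
      rw [chr_spec (by omega), chr_spec (by omega), h j hj]
    · simp only [hj, if_false]
      rw [List.getElem?_eq_none (by omega)]

/-- For every nontrivial universal partial word over the binary alphabet, having well-defined
diamondicity, being pseudocyclic and being cyclic are equivalent. -/
theorem result (n : ℕ) (hn : 1 ≤ n) (w : List (Option Bool)) (hw : Universal n w)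
    (ht : Nontrivial n w) :
    (WellDefinedDiamondicity n w ↔ Pseudocyclic n w) ∧ (Pseudocyclic n w ↔ Cyclic n w) := by
  obtain ⟨k, rfl⟩ : ∃ k, n = k + 1 := ⟨n - 1, by omega⟩
  obtain ⟨K, hL, hU⟩ := universal_chr hw
  refine ⟨?_, ?_⟩
  · rw [wd_iff hL, pseudo_iff hL]
    exact ⟨pseudo_of_wd hU, wd_of_pseudo hU⟩
  · refine ⟨fun hp => ⟨hp, ?_⟩, fun h => h.1⟩
    rw [pseudo_iff hL] at hp
    by_contra hcon
    have hlt : K + 1 ≤ k := by omega
    have hnone := overlap hU hp hlt
    have hall : ∀ p, p < w.length → chr w p = none := by
      intro p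
      induction p using Nat.strong_induction_on with
      | _ p ih =>
        intro hpl
        by_cases hpK : p < K + 1
        · exact hnone p hpK
        · have h1 := hp (p - (K + 1)) (by omega)
          have e : K + 1 + (p - (K + 1)) = p := by omega
          rw [e] at h1
          rw [← h1]
          exact ih _ (by omega) (by omega)
    have hK : K = 0 := by
      obtain ⟨i, -, hi⟩ := hU (fun _ => true)
      have h0 := hi 0 ⟨by omega, fun j hj => Or.inl (hall _ (by omega))⟩
      have h1 := hi K ⟨by omega, fun j hj => Or.inl (hall _ (by omega))⟩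
      omega
    apply ht.1
    apply List.ext_getElem?
    intro j
    rw [List.getElem?_replicate]
    by_cases hj : j < k + 1
    · rw [if_pos hj, chr_spec (by omega), hall j (by omega)]
    · rw [if_neg hj, List.getElem?_eq_none (by omega)]

end Pool.Agent.Results.MP_e9025c_co.CyclicUpwords
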